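import Pool.Agent.Lib.MP_42de19_nt.Boxes
import Pool.Agent.Lib.MP_42de19_nt.Defs

set_option autoImplicit false

namespace Pool.Agent.Results.MP_42de19_nt.ProductCover

open Set Topology Filter Pool.Agent.Lib.MP42

/-- The polynomial `y_j² - c_j ∏_{i ∈ S_j} f_i(x_i)` in the `n + k` variables `x₁, …, x_n` (the first
`n` variables) and `y₁, …, y_k` (the last `k` variables). -/
noncomputable def productCover {n k : ℕ} (f : Fin n → Polynomial ℚ) (c : Fin k → ℚ)
    (S : Fin k → Finset (Fin n)) (j : Fin k) : MvPolynomial (Fin (n + k)) ℚ :=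
  MvPolynomial.X (Fin.natAdd n j) ^ 2 - MvPolynomial.C (c j) *
    ∏ i ∈ S j, Polynomial.aeval (MvPolynomial.X (Fin.castAdd k i)) (f i)

theorem eval_productCover {n k : ℕ} (f : Fin n → Polynomial ℚ) (c : Fin k → ℚ)
    (S : Fin k → Finset (Fin n)) (j : Fin k) (q : Fin (n + k) → ℚ) :
    MvPolynomial.eval q (productCover f c S j) = q (Fin.natAdd n j) ^ 2 -
      c j * ∏ i ∈ S j, (f i).eval (q (Fin.castAdd k i)) := by
  unfold productCover
  rw [map_sub, map_pow, MvPolynomial.eval_X, map_mul, MvPolynomial.eval_C, map_prod]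
  congr 2
  refine Finset.prod_congr rfl fun i _ => ?_
  have : ∀ p : Polynomial ℚ, MvPolynomial.eval q (Polynomial.aeval
      (MvPolynomial.X (Fin.castAdd k i)) p) = p.eval (q (Fin.castAdd k i)) := by
    intro p
    rw [← MvPolynomial.aeval_eq_eval, ← Polynomial.aeval_algHom_apply, MvPolynomial.aeval_X,
      Polynomial.coe_aeval_eq_eval]
  exact this (f i)

theorem aeval_productCover {n k : ℕ} (f : Fin n → Polynomial ℚ) (c : Fin k → ℚ)
    (S : Fin k → Finset (Fin n)) (j : Fin k) (w : Fin (n + k) → ℝ) :
    (MvPolynomial.aeval w (productCover f c S j) : ℝ) = w (Fin.natAdd n j) ^ 2 -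
      c j * ∏ i ∈ S j, Polynomial.aeval (w (Fin.castAdd k i)) (f i) := by
  unfold productCover
  rw [map_sub, map_pow, MvPolynomial.aeval_X, map_mul, MvPolynomial.aeval_C, map_prod]
  congr 2
  refine Finset.prod_congr rfl fun i _ => ?_
  rw [← Polynomial.aeval_algHom_apply, MvPolynomial.aeval_X]

/-- Let `f₁, …, f_n` be polynomials in one variable of degree at most four with rational
coefficients, let `X` be the variety defined by the equations `y_j² = c_j ∏_{i ∈ S_j} f_i(x_i)`,
`1 ≤ j ≤ k`, and let `R` be any set of `n`-tuples of rational numbers that is stable under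
multiplication of one coordinate by a nonzero square. Then the closure of the set of all
rational points `(x, y)` of `X` with `(f₁(x₁), …, f_n(x_n)) ∈ R` is semialgebraic over `ℚ`. -/
theorem result (n k : ℕ) (f : Fin n → Polynomial ℚ) (hf : ∀ i, (f i).natDegree ≤ 4)
    (c : Fin k → ℚ) (S : Fin k → Finset (Fin n)) (R : Set (Fin n → ℚ))
    (hR : ∀ u ∈ R, ∀ i, ∀ l : ℚ, l ≠ 0 → Function.update u i (l ^ 2 * u i) ∈ R) :
    Semialgebraic (closure {w : Fin (n + k) → ℝ | ∃ q : Fin (n + k) → ℚ,
      (∀ j, MvPolynomial.eval q (productCover f c S j) = 0) ∧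
      (fun i => (f i).eval (q (Fin.castAdd k i))) ∈ R ∧ ∀ i, w i = (q i : ℝ)}) := by
  classical
  let A : Set (Fin n → ℚ) := {z | (∀ j, ∃ r : ℚ, r ^ 2 = c j * ∏ i ∈ S j, (f i).eval (z i)) ∧
    (fun i => (f i).eval (z i)) ∈ R}
  have hA : ∀ z ∈ A, ∀ i s, Eqv (f i) (z i) s → Function.update z i s ∈ A := by
    rintro z ⟨hz1, hz2⟩ i s ⟨l, hl, hls⟩
    refine ⟨fun j => ?_, ?_⟩
    · obtain ⟨r, hr⟩ := hz1 j
      by_cases hi : i ∈ S j
      · refine ⟨l * r, ?_⟩
        rw [← Finset.mul_prod_erase _ _ hi] at hr ⊢
        have h1 : ∏ x ∈ (S j).erase i, (f x).eval (Function.update z i s x) =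
            ∏ x ∈ (S j).erase i, (f x).eval (z x) := by
          refine Finset.prod_congr rfl fun x hx => ?_
          rw [Function.update_of_ne (Finset.ne_of_mem_erase hx)]
        rw [h1, Function.update_self, hls, mul_pow, hr]
        ring
      · refine ⟨r, ?_⟩
        rw [hr]
        congr 1
        refine Finset.prod_congr rfl fun x hx => ?_
        rw [Function.update_of_ne (by rintro rfl; exact hi hx)]
    · have h2 := hR _ hz2 i l hl
      have h3 : (fun j => (f j).eval (Function.update z i s j)) =
          Function.update (fun j => (f j).eval (z j)) i (l ^ 2 * (f i).eval (z i)) := by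
        funext j
        by_cases hj : j = i
        · subst hj; rw [Function.update_self, Function.update_self, hls]
        · rw [Function.update_of_ne hj, Function.update_of_ne hj]
      show (fun j => (f j).eval (Function.update z i s j)) ∈ R
      rw [h3]; exact h2
  have hSA := sa_closure_saturated f hf A hA
  -- pull back to the total space
  have hpull : SA (evR (n + k)) ((fun w : Fin (n + k) → ℝ => fun i => w (Fin.castAdd k i)) ⁻¹'
      closure (castSet A)) := by
    refine SA.comap (ψ := fun a => MvPolynomial.rename (Fin.castAdd k) a) _ ?_ hSA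
    intro a y
    rw [evR_apply, evR_apply, MvPolynomial.aeval_rename]
    rfl
  have hX : SA (evR (n + k)) {w | ∀ j, (MvPolynomial.aeval w (productCover f c S j) : ℝ) = 0} := by
    have : {w : Fin (n + k) → ℝ | ∀ j, (MvPolynomial.aeval w (productCover f c S j) : ℝ) = 0} =
        ⋂ j, {w | evR (n + k) (productCover f c S j) w = 0} := by
      ext w; simp [evR_apply]
    rw [this]
    exact SA.iInter_finite _ fun j => SA.eq_zero _
  have heq : closure {w : Fin (n + k) → ℝ | ∃ q : Fin (n + k) → ℚ,
      (∀ j, MvPolynomial.eval q (productCover f c S j) = 0) ∧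
      (fun i => (f i).eval (q (Fin.castAdd k i))) ∈ R ∧ ∀ i, w i = (q i : ℝ)} =
      {w | ∀ j, (MvPolynomial.aeval w (productCover f c S j) : ℝ) = 0} ∩
      (fun w : Fin (n + k) → ℝ => fun i => w (Fin.castAdd k i)) ⁻¹' closure (castSet A) := by
    have hcont : Continuous (fun w : Fin (n + k) → ℝ => fun i : Fin n => w (Fin.castAdd k i)) := by
      fun_prop
    apply Set.Subset.antisymm
    · refine closure_minimal ?_ ?_
      · rintro w ⟨q, hq1, hq2, hw⟩
        have hwq : w = fun i => (q i : ℝ) := funext hw
        refine ⟨fun j => ?_, subset_closure ⟨fun i => q (Fin.castAdd k i), ⟨fun j => ?_, hq2⟩,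
          fun i => hw _⟩⟩
        · rw [hwq, aeval_ratCast, hq1 j]; simp
        · refine ⟨q (Fin.natAdd n j), ?_⟩
          have := hq1 j
          rw [eval_productCover] at this
          linarith
      · refine IsClosed.inter ?_ (isClosed_closure.preimage hcont)
        have : {w : Fin (n + k) → ℝ | ∀ j, (MvPolynomial.aeval w (productCover f c S j) : ℝ) = 0} =
            ⋂ j, {w | (MvPolynomial.aeval w (productCover f c S j) : ℝ) = 0} := by
          ext w; simp
        rw [this]
        exact isClosed_iInter fun j => isClosed_singleton.preimage (continuous_aeval _)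
    · rintro w ⟨hw1, hw2⟩
      rw [Metric.mem_closure_iff]
      intro ε hε
      -- continuity of the square roots
      let g : Fin k → (Fin n → ℝ) → ℝ := fun j x =>
        Real.sqrt (c j * ∏ i ∈ S j, Polynomial.aeval (x i) (f i))
      have hg : ∀ j, Continuous (g j) := by
        intro j
        refine Real.continuous_sqrt.comp (continuous_const.mul ?_)
        exact continuous_finsetProd _ fun i _ =>
          (Polynomial.continuous_aeval (f i)).comp (continuous_apply i)
      set x₀ : Fin n → ℝ := fun i => w (Fin.castAdd k i) with hx₀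
      have h1 : ∀ᶠ x in 𝓝 x₀, ∀ j, |g j x - g j x₀| < ε := by
        rw [Filter.eventually_all]
        intro j
        have := Metric.tendsto_nhds.mp ((hg j).continuousAt (x := x₀)).tendsto ε hε
        simpa only [Real.dist_eq] using this
      rw [Metric.eventually_nhds_iff] at h1
      obtain ⟨δ, hδ, h1⟩ := h1
      obtain ⟨x, ⟨z, hz, hxz⟩, hd⟩ := Metric.mem_closure_iff.mp hw2 (min ε δ) (lt_min hε hδ)
      rw [dist_comm] at hd
      have hd1 : dist x x₀ < ε := lt_of_lt_of_le hd (min_le_left _ _)
      have hd2 := h1 (lt_of_lt_of_le hd (min_le_right _ _))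
      obtain ⟨hz1, hz2⟩ := hz
      choose r hr using hz1
      have hxz' : x = fun i => (z i : ℝ) := funext hxz
      have hgx : ∀ j, g j x = |(r j : ℝ)| := by
        intro j
        simp only [g]
        have : (c j : ℝ) * ∏ i ∈ S j, (Polynomial.aeval (x i) (f i) : ℝ) = (r j : ℝ) ^ 2 := by
          have h2 : ((r j ^ 2 : ℚ) : ℝ) = ((c j * ∏ i ∈ S j, (f i).eval (z i) : ℚ) : ℝ) := by
            rw [hr j]
          push_cast at h2
          rw [h2]
          congr 1
          refine Finset.prod_congr rfl fun i _ => ?_
          rw [hxz i, aeval_ratCast']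
        rw [this, Real.sqrt_sq_eq_abs]
      have hgw : ∀ j, g j x₀ = |w (Fin.natAdd n j)| := by
        intro j
        simp only [g]
        have h2 := hw1 j
        rw [aeval_productCover] at h2
        have h3 : (c j : ℝ) * ∏ i ∈ S j, (Polynomial.aeval (x₀ i) (f i) : ℝ) =
            w (Fin.natAdd n j) ^ 2 := by
          rw [hx₀]; linarith
        rw [h3, Real.sqrt_sq_eq_abs]
      -- choose the signs
      have hsign : ∀ j, ∃ r' : ℚ, r' ^ 2 = r j ^ 2 ∧ |(r' : ℝ) - w (Fin.natAdd n j)| < ε := by
        intro j
        have h2 := hd2 j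
        rw [hgx, hgw] at h2
        rcases le_total 0 (w (Fin.natAdd n j)) with h4 | h4
        · refine ⟨|r j|, sq_abs _, ?_⟩
          push_cast
          rw [abs_of_nonneg h4] at h2
          exact h2
        · refine ⟨-|r j|, by rw [neg_sq, sq_abs], ?_⟩
          push_cast
          rw [abs_of_nonpos h4] at h2
          rw [show -|(r j : ℝ)| - w (Fin.natAdd n j) = -(|(r j : ℝ)| - -w (Fin.natAdd n j)) by ring,
            abs_neg]
          exact h2
      choose r' hr' hr'w using hsign
      let q : Fin (n + k) → ℚ := Fin.append z r'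
      refine ⟨fun i => (q i : ℝ), ⟨q, fun j => ?_, ?_, fun i => rfl⟩, ?_⟩
      · rw [eval_productCover]
        simp only [q, Fin.append_right, Fin.append_left]
        rw [hr' j, hr j]; ring
      · simp only [q, Fin.append_left]
        exact hz2
      · rw [dist_comm, dist_pi_lt_iff hε]
        intro i
        refine Fin.addCases (fun i => ?_) (fun j => ?_) i
        · simp only [q, Fin.append_left]
          have := dist_le_pi_dist x x₀ i
          rw [hxz i] at this
          exact lt_of_le_of_lt this hd1
        · simp only [q, Fin.append_right]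
          rw [Real.dist_eq]
          exact hr'w j
  rw [heq]
  exact (hX.inter hpull).isSemialg

end Pool.Agent.Results.MP_42de19_nt.ProductCover
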