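import Pool.Agent.Lib.MP_42de19_nt.CubicHyp.Main

set_option autoImplicit false

namespace Pool.Agent.Results.MP_42de19_nt.CubicHypersurfaces

open Pool.Agent.Lib.MP42

/-- Let `f` be a polynomial in `n` variables of degree at most three with rational coefficients.
Then the closure in `ℝⁿ` of the set of rational zeros of `f` is semialgebraic over `ℚ`. -/
theorem result (n : ℕ) (f : MvPolynomial (Fin n) ℚ) (hf : f.totalDegree ≤ 3) :
    Semialgebraic (ratClosure {f}) :=
  CubicHyp.cubic f hf

end Pool.Agent.Results.MP_42de19_nt.CubicHypersurfaces
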