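import Pool.Agent.Lib.MP_42de19_nt.CubicHyp.QuadMain

set_option autoImplicit false

namespace Pool.Agent.Results.MP_42de19_nt.TwoQuadrics

open Pool.Agent.Lib.MP42

/-- Let `f₁` and `f₂` be polynomials in `n` variables of degree at most two with rational
coefficients. Then the closure in `ℝⁿ` of the set of their common rational zeros is semialgebraic
over `ℚ`. -/
theorem result (n : ℕ) (f₁ f₂ : MvPolynomial (Fin n) ℚ) (h₁ : f₁.totalDegree ≤ 2)
    (h₂ : f₂.totalDegree ≤ 2) : Semialgebraic (ratClosure {f₁, f₂}) :=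
  CubicHyp.two_quadrics f₁ f₂ h₁ h₂

end Pool.Agent.Results.MP_42de19_nt.TwoQuadrics
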