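import Pool.Agent.Lib.MP_42de19_nt.Defs
import Pool.Agent.Lib.MP_42de19_nt.Moves

set_option autoImplicit false

namespace Pool.Agent.Results.MP_42de19_nt.MultiQuadraticCover

open Set Topology Pool.Agent.Lib.MP42

theorem aeval_doubleCover {m : ℕ} (D : MvPolynomial (Fin m) ℚ) (z : Fin (m + 1) → ℝ) :
    (MvPolynomial.aeval z (doubleCover D) : ℝ) =
      z 0 ^ 2 - MvPolynomial.aeval (Fin.tail z) D := by
  unfold doubleCover
  rw [map_sub, map_pow, MvPolynomial.aeval_X, MvPolynomial.aeval_rename]
  rfl

theorem eval_doubleCover {m : ℕ} (D : MvPolynomial (Fin m) ℚ) (z : Fin (m + 1) → ℚ) :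
    MvPolynomial.eval z (doubleCover D) = z 0 ^ 2 - MvPolynomial.eval (Fin.tail z) D := by
  unfold doubleCover
  rw [map_sub, map_pow, MvPolynomial.eval_X, MvPolynomial.eval_rename]
  rfl

theorem aeval_pderiv_zero {m : ℕ} (D : MvPolynomial (Fin m) ℚ) (z : Fin (m + 1) → ℝ) :
    (MvPolynomial.aeval z (MvPolynomial.pderiv 0 (doubleCover D)) : ℝ) = 2 * z 0 := by
  unfold doubleCover
  have h : MvPolynomial.pderiv (0 : Fin (m + 1)) (MvPolynomial.rename Fin.succ D) = 0 := by
    induction D using MvPolynomial.induction_on with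
    | C a => simp
    | add p q hp hq => rw [map_add, map_add, hp, hq, add_zero]
    | mul_X p i hp =>
      rw [map_mul, MvPolynomial.rename_X, MvPolynomial.pderiv_mul, hp, MvPolynomial.pderiv_X]
      simp
  rw [map_sub, h, sub_zero]
  rw [pow_two, MvPolynomial.pderiv_mul]
  simp
  ring

theorem aeval_pderiv_succ {m : ℕ} (D : MvPolynomial (Fin m) ℚ) (z : Fin (m + 1) → ℝ) (i : Fin m) :
    (MvPolynomial.aeval z (MvPolynomial.pderiv i.succ (doubleCover D)) : ℝ) =
      - MvPolynomial.aeval (Fin.tail z) (MvPolynomial.pderiv i D) := by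
  unfold doubleCover
  have h : MvPolynomial.pderiv (Fin.succ i) (MvPolynomial.rename Fin.succ D) =
      MvPolynomial.rename Fin.succ (MvPolynomial.pderiv i D) := by
    induction D using MvPolynomial.induction_on with
    | C a => simp
    | add p q hp hq => rw [map_add, map_add, hp, hq, map_add, map_add]
    | mul_X p j hp =>
      rw [map_mul, MvPolynomial.rename_X, MvPolynomial.pderiv_mul, hp, MvPolynomial.pderiv_X,
        MvPolynomial.pderiv_mul, MvPolynomial.pderiv_X, map_add, map_mul, map_mul,
        MvPolynomial.rename_X]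
      congr 2
      by_cases hij : j = i
      · subst hij; simp
      · have : Fin.succ j ≠ Fin.succ i := fun h => hij (Fin.succ_injective _ h)
        simp [Pi.single_eq_of_ne hij, Pi.single_eq_of_ne this]
  rw [map_sub, h, map_sub]
  rw [pow_two, MvPolynomial.pderiv_mul, MvPolynomial.pderiv_X, MvPolynomial.aeval_rename]
  have h2 : (Pi.single (Fin.succ i) 1 : Fin (m + 1) → MvPolynomial (Fin (m + 1)) ℚ) 0 = 0 := by
    rw [Pi.single_eq_of_ne]
    exact (Fin.succ_ne_zero i).symm
  rw [h2]
  simp
  rfl

/-- Membership in the closure of the rational points in terms of the base point. -/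
theorem mem_ratClosure {m : ℕ} (D : MvPolynomial (Fin m) ℚ) (w : Fin (m + 1) → ℝ) :
    w ∈ ratClosure {doubleCover D} ↔
      (MvPolynomial.aeval w (doubleCover D) : ℝ) = 0 ∧ SqLim D (Fin.tail w) := by
  constructor
  · intro hw
    constructor
    · have hcl : IsClosed {w : Fin (m + 1) → ℝ | (MvPolynomial.aeval w (doubleCover D) : ℝ) = 0} :=
        isClosed_singleton.preimage (continuous_aeval (doubleCover D))
      refine hcl.closure_subset_iff.mpr ?_ hw
      rintro x ⟨q, hq, hx⟩
      have : x = fun i => (q i : ℝ) := funext hx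
      rw [this, mem_ofPred_eq, aeval_ratCast, hq _ rfl]
      simp
    · intro ε hε
      obtain ⟨x, ⟨q, hq, hx⟩, hd⟩ := Metric.mem_closure_iff.mp hw ε hε
      rw [dist_pi_lt_iff hε] at hd
      refine ⟨Fin.tail q, fun j => ?_, q 0, ?_⟩
      · have := hd j.succ
        rw [hx, Real.dist_eq, abs_sub_comm] at this
        exact this
      · have := hq _ rfl
        rw [eval_doubleCover] at this
        linarith
  · rintro ⟨h0, hlim⟩
    rw [aeval_doubleCover] at h0
    have hw0 : w 0 ^ 2 = MvPolynomial.aeval (Fin.tail w) D := by linarith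
    refine Metric.mem_closure_iff.mpr fun ε hε => ?_
    have hc : ContinuousAt (fun z : Fin m → ℝ =>
        Real.sqrt (MvPolynomial.aeval z D : ℝ)) (Fin.tail w) :=
      (Real.continuous_sqrt.comp (continuous_aeval D)).continuousAt
    have h1 := Metric.tendsto_nhds.mp hc.tendsto ε hε
    rw [Metric.eventually_nhds_iff] at h1
    obtain ⟨δ, hδ, h2⟩ := h1
    obtain ⟨z, hz, y, hy⟩ := hlim (min ε δ) (lt_min hε hδ)
    have h3 := h2 (y := fun j => (z j : ℝ)) (by
      rw [dist_pi_lt_iff hδ]
      intro j
      rw [Real.dist_eq]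
      exact lt_of_lt_of_le (hz j) (min_le_right _ _))
    rw [aeval_ratCast, ← hy, ← hw0] at h3
    push_cast at h3
    rw [Real.sqrt_sq_eq_abs, Real.sqrt_sq_eq_abs, Real.dist_eq] at h3
    -- choose the sign
    obtain ⟨r, hr, hrw⟩ : ∃ r : ℚ, r ^ 2 = y ^ 2 ∧ |(r : ℝ) - w 0| < ε := by
      rcases le_total 0 (w 0) with h4 | h4
      · refine ⟨|y|, sq_abs y, ?_⟩
        push_cast
        rw [abs_of_nonneg h4] at h3
        exact h3
      · refine ⟨-|y|, by rw [neg_sq, sq_abs], ?_⟩
        push_cast
        rw [abs_of_nonpos h4] at h3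
        rw [show -|(y : ℝ)| - w 0 = -(|(y : ℝ)| - -w 0) by ring, abs_neg]
        exact h3
    refine ⟨fun i => ((Fin.cons r z : Fin (m + 1) → ℚ) i : ℝ), ⟨Fin.cons r z, ?_, fun i => rfl⟩, ?_⟩
    · intro f hf
      rw [mem_singleton_iff] at hf
      rw [hf, eval_doubleCover, Fin.cons_zero, Fin.tail_cons, hr, hy]
      ring
    · rw [dist_pi_lt_iff hε]
      intro i
      refine Fin.cases ?_ (fun j => ?_) i
      · rw [Fin.cons_zero, Real.dist_eq, abs_sub_comm]; exact hrw
      · rw [Fin.cons_succ, Real.dist_eq, abs_sub_comm]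
        exact lt_of_lt_of_le (hz j) (min_le_left _ _)

/-- Let `D` be a polynomial in `m` variables with rational coefficients, of degree at most two in
each variable, and let `X` be the hypersurface `x₀² = D(x₁, …, x_m)`. Then the closure of `X(ℚ)`
meets the smooth real locus of `X` in a set `U` that is open and closed in it and semialgebraic
over `ℚ`, and the closure of `X(ℚ)` is the union of the closure of `U`, which is semialgebraic
over `ℚ`, and of the closure of the set of rational points of the singular locus of `X`. -/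
theorem result (m : ℕ) (D : MvPolynomial (Fin m) ℚ) (hD : ∀ i, D.degreeOf i ≤ 2) :
    ∃ U : Set (Fin (m + 1) → ℝ),
      U = ratClosure {doubleCover D} ∩ smoothRealPoints (doubleCover D) ∧
      (∃ O, IsOpen O ∧ U = O ∩ smoothRealPoints (doubleCover D)) ∧
      Semialgebraic U ∧ Semialgebraic (closure U) ∧
      ratClosure {doubleCover D} = closure U ∪ ratClosure
        ({doubleCover D} ∪ Set.range fun i => MvPolynomial.pderiv i (doubleCover D)) ∧
      (Semialgebraic (ratClosure
        ({doubleCover D} ∪ Set.range fun i => MvPolynomial.pderiv i (doubleCover D))) →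
        Semialgebraic (ratClosure {doubleCover D})) := by
  classical
  set P := doubleCover D with hP
  set W := ratClosure {P} with hW
  have hWcl : IsClosed W := isClosed_closure
  -- smoothness
  have hsm : ∀ w ∈ smoothRealPoints P, (MvPolynomial.aeval (Fin.tail w) D : ℝ) ≠ 0 ∨
      ∃ i, (MvPolynomial.aeval (Fin.tail w) (MvPolynomial.pderiv i D) : ℝ) ≠ 0 := by
    rintro w ⟨h0, i, hi⟩
    rw [hP, aeval_doubleCover] at h0
    revert hi
    refine Fin.cases ?_ (fun j => ?_) i
    · intro hi
      rw [hP, aeval_pderiv_zero] at hi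
      left
      intro h
      rw [h, sub_zero] at h0
      have : w 0 = 0 := by simpa using h0
      exact hi (by rw [this]; ring)
    · intro hi
      rw [hP, aeval_pderiv_succ] at hi
      right
      exact ⟨j, fun h => hi (by rw [h]; ring)⟩
  -- local openness
  have hloc : ∀ w ∈ W ∩ smoothRealPoints P, ∃ δ > 0, ∀ w' : Fin (m + 1) → ℝ,
      (∀ j : Fin m, |w' j.succ - w j.succ| < δ) → w' ∈ smoothRealPoints P → w' ∈ W := by
    rintro w ⟨hw, hws⟩
    obtain ⟨_, hlim⟩ := (mem_ratClosure D w).mp hw
    obtain ⟨δ, hδ, h⟩ := local_open hD hlim (hsm w hws)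
    refine ⟨δ, hδ, fun w' hw' hs' => ?_⟩
    refine (mem_ratClosure D w').mpr ⟨hs'.1, h _ hw' ?_⟩
    have := hs'.1
    rw [hP, aeval_doubleCover] at this
    nlinarith [sq_nonneg (w' 0)]
  choose! δ hδ hloc using hloc
  let O : Set (Fin (m + 1) → ℝ) :=
    ⋃ w ∈ W ∩ smoothRealPoints P, {w' | ∀ j : Fin m, |w' j.succ - w j.succ| < δ w}
  have hO : IsOpen O := by
    refine isOpen_biUnion fun w _ => ?_
    have : {w' : Fin (m + 1) → ℝ | ∀ j : Fin m, |w' j.succ - w j.succ| < δ w} =
        ⋂ j : Fin m, {w' | |w' j.succ - w j.succ| < δ w} := by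
      ext; simp
    rw [this]
    refine isOpen_iInter_of_finite fun j => ?_
    exact isOpen_lt (by fun_prop) continuous_const
  have hUO : W ∩ smoothRealPoints P = O ∩ smoothRealPoints P := by
    apply Set.Subset.antisymm
    · rintro w ⟨hw, hs⟩
      refine ⟨?_, hs⟩
      refine mem_biUnion (x := w) ⟨hw, hs⟩ ?_
      intro j
      rw [sub_self, abs_zero]
      exact hδ w ⟨hw, hs⟩
    · rintro w' ⟨hw', hs'⟩
      refine ⟨?_, hs'⟩
      simp only [O, mem_iUnion] at hw'
      obtain ⟨w, hw, h⟩ := hw'
      exact hloc w hw w' h hs'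
  -- the smooth locus is semialgebraic
  have hSsm : SA (evR (m + 1)) (smoothRealPoints P) := by
    have : smoothRealPoints P = {x | evR (m + 1) P x = 0} ∩
        ⋃ i, {x | evR (m + 1) (MvPolynomial.pderiv i P) x ≠ 0} := by
      ext x
      simp only [smoothRealPoints, mem_ofPred_eq, mem_inter_iff, mem_iUnion, evR_apply]
    rw [this]
    exact (SA.eq_zero _).inter (SA.iUnion_finite _ fun i => SA.ne_zero _)
  have hSU : SA (evR (m + 1)) (W ∩ smoothRealPoints P) := by
    refine SA.of_clopen (S := smoothRealPoints P) (U := O) (Z := W) hSsm hO hWcl ?_ ?_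
    · rw [hUO, Set.inter_comm]
    · rw [Set.inter_comm]
  have hScl : SA (evR (m + 1)) (closure (W ∩ smoothRealPoints P)) := hSU.closure
  have hsing : ratClosure ({P} ∪ Set.range fun i => MvPolynomial.pderiv i P) ⊆ W := by
    apply closure_mono
    rintro x ⟨q, hq, hx⟩
    exact ⟨q, fun f hf => hq f (Or.inl hf), hx⟩
  have hWeq : W = closure (W ∩ smoothRealPoints P) ∪ ratClosure
      ({P} ∪ Set.range fun i => MvPolynomial.pderiv i P) := by
    apply Set.Subset.antisymm
    · have : IsClosed (closure (W ∩ smoothRealPoints P) ∪ ratClosure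
          ({P} ∪ Set.range fun i => MvPolynomial.pderiv i P)) :=
        isClosed_closure.union isClosed_closure
      refine this.closure_subset_iff.mpr ?_
      rintro x ⟨q, hq, hx⟩
      have hxq : x = fun i => (q i : ℝ) := funext hx
      by_cases hs : ∃ i, MvPolynomial.eval q (MvPolynomial.pderiv i P) ≠ 0
      · left
        apply subset_closure
        refine ⟨subset_closure ⟨q, hq, hx⟩, ?_, ?_⟩
        · rw [hxq, aeval_ratCast, hq P rfl]; simp
        · obtain ⟨i, hi⟩ := hs
          refine ⟨i, ?_⟩
          rw [hxq, aeval_ratCast]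
          exact_mod_cast hi
      · right
        push Not at hs
        apply subset_closure
        refine ⟨q, ?_, hx⟩
        rintro f (hf | ⟨i, rfl⟩)
        · exact hq f hf
        · exact hs i
    · refine Set.union_subset ?_ hsing
      exact hWcl.closure_subset_iff.mpr Set.inter_subset_left
  refine ⟨W ∩ smoothRealPoints P, rfl, ⟨O, hO, hUO⟩, hSU.isSemialg, hScl.isSemialg, hWeq, ?_⟩
  intro h
  rw [hWeq]
  exact IsSemialg.union hScl.isSemialg h

end Pool.Agent.Results.MP_42de19_nt.MultiQuadraticCover
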