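import Pool.Agent.Lib.MP_42de19_nt.Old.QuarticCover
import Pool.Agent.Lib.MP_42de19_nt.PointZL

set_option autoImplicit false

namespace Pool.Agent.Results.MP_42de19_nt.PointDensity

open Set Topology Filter Pool.Agent.Lib.MP42 WeierstrassCurve

/-- A rational point `w` of `x₀² = D(x₁, …, x_m)` is free if `w₀ ≠ 0` and if, for each variable `xᵢ`
in which `D` has degree at least three, the following holds. Write
`D(w₁, …, wᵢ + T, …, w_m) = c₀ + c₁ T + c₂ T² + c₃ T³ + c₄ T⁴`, so that `c₀ = w₀²`. Then the Jacobian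
`Y² = X³ + c₂ X² + (c₁ c₃ - 4 c₀ c₄) X + (c₀ c₃² + c₁² c₄ - 4 c₀ c₂ c₄)` of the genus one curve
`Y² = c₀ + … + c₄ T⁴` is nonsingular, and its rational point `S = (X, (c₁ X + 2 c₀ c₃) / (2 w₀))`,
`X = (c₁² - 4 c₀ c₂) / (4 c₀)`, has infinite order. -/
def FreePoint {m : ℕ} (D : MvPolynomial (Fin m) ℚ) (w : Fin (m + 1) → ℚ) : Prop :=
  w 0 ≠ 0 ∧ ∀ i, D.degreeOf i ≤ 2 ∨ ∃ c : Fin 5 → ℚ,
    (∀ k, c k = (slicePoly D (Fin.tail w) i).coeff k) ∧ (quarticJac c).Δ ≠ 0 ∧
    ∃ (x y : ℚ) (h : (quarticJac c).toAffine.Nonsingular x y),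
      x = (c 1 ^ 2 - 4 * c 0 * c 2) / (4 * c 0) ∧ y = (c 1 * x + 2 * c 0 * c 3) / (2 * w 0) ∧
      ¬ IsOfFinAddOrder (Affine.Point.some x y h)

theorem pgood_of_free {m : ℕ} {D : MvPolynomial (Fin m) ℚ} (hD : ∀ i, D.degreeOf i ≤ 4)
    {w : Fin (m + 1) → ℚ} (hw : w 0 ^ 2 = MvPolynomial.eval (Fin.tail w) D)
    (hf : FreePoint D w) : PGood D (Fin.tail w) := by
  have hne : MvPolynomial.eval (Fin.tail w) D ≠ 0 := by
    rw [← hw]; exact pow_ne_zero 2 hf.1
  refine ⟨hne, fun i => ?_⟩
  rcases hf.2 i with h | ⟨c, hc, hΔ, x, y, h, hx, -, hP⟩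
  · exact Or.inl h
  · right
    have hc' : c = fun k => MvPolynomial.eval (Fin.tail w) (tcf D i k) := by
      funext k
      rw [hc k, slicePoly_coeff]
    subst hc'
    refine ⟨hD i, ?_, fun N => eval_gpoly_ne (hD i) hne h hx hP N⟩
    rw [quarticJac_Δ] at hΔ
    have h1 := disc4_map (MvPolynomial.eval (Fin.tail w)) (tcf D i)
    rw [← h1]
    exact right_ne_zero_of_mul hΔ

/-- Let `D` be a nonzero polynomial in `m` variables with rational coefficients, of degree at most
four in each variable, let `X` be the hypersurface `x₀² = D(x₁, …, x_m)`, and let `W` be the closure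
of `X(ℚ)` in `X(ℝ)`. There is a subset `U` of the smooth real locus of `X`, relatively open and
closed in it, semialgebraic over `ℚ` and with semialgebraic closure, such that `U` contains every
free rational point `w`, together with the connected component of the smooth real locus through `w`,
and such that `W` is the union of the closure of `U` and of the closure of the set of rational points
of `X` that are not free. If this last closure is semialgebraic over `ℚ`, then so is `W`. -/
theorem result (m : ℕ) (D : MvPolynomial (Fin m) ℚ) (hD0 : D ≠ 0) (hD : ∀ i, D.degreeOf i ≤ 4) :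
    ∃ U : Set (Fin (m + 1) → ℝ),
      (∃ O, IsOpen O ∧ U = O ∩ smoothRealPoints (doubleCover D)) ∧
      (∃ Z, IsClosed Z ∧ U = Z ∩ smoothRealPoints (doubleCover D)) ∧
      Semialgebraic U ∧ Semialgebraic (closure U) ∧
      (∀ w : Fin (m + 1) → ℚ, MvPolynomial.eval w (doubleCover D) = 0 → FreePoint D w →
        (fun i => (w i : ℝ)) ∈ U ∧
        connectedComponentIn (smoothRealPoints (doubleCover D)) (fun i => (w i : ℝ)) ⊆ U) ∧
      ratClosure {doubleCover D} = closure U ∪ closure {x : Fin (m + 1) → ℝ |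
        ∃ w : Fin (m + 1) → ℚ, (MvPolynomial.eval w (doubleCover D) = 0 ∧ ¬ FreePoint D w) ∧
          ∀ i, x i = (w i : ℝ)} ∧
      (Semialgebraic (closure {x : Fin (m + 1) → ℝ |
        ∃ w : Fin (m + 1) → ℚ, (MvPolynomial.eval w (doubleCover D) = 0 ∧ ¬ FreePoint D w) ∧
          ∀ i, x i = (w i : ℝ)}) → Semialgebraic (ratClosure {doubleCover D})) := by
  classical
  obtain ⟨U, -, hU, ⟨Z, hZ, hUZ⟩, hSU, hSUc, -, -⟩ := QuarticCover.result m D hD0 hD
  set X := smoothRealPoints (doubleCover D) with hX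
  set W := ratClosure {doubleCover D} with hW
  have hUX : U ⊆ X := by rw [hU]; exact inter_subset_right
  have hUW : U ⊆ W := by
    rw [hU]
    rintro x ⟨h1, h2⟩
    rcases interior_subset h1 with h | h
    · exact h
    · exact absurd h2 h
  have hWcl : IsClosed W := isClosed_closure
  have hmem : ∀ w : Fin (m + 1) → ℚ, MvPolynomial.eval w (doubleCover D) = 0 → FreePoint D w →
      (fun i => (w i : ℝ)) ∈ U := by
    intro w hw hf
    rw [eval_doubleCover] at hw
    have hw' : w 0 ^ 2 = MvPolynomial.eval (Fin.tail w) D := by linarith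
    have hg := pgood_of_free hD hw' hf
    have hne : MvPolynomial.eval (Fin.tail w) D ≠ 0 := hg.1
    have hpos : 0 < MvPolynomial.eval (Fin.tail w) D := by
      refine lt_of_le_of_ne ?_ (Ne.symm hne)
      rw [← hw']; positivity
    have htl : Fin.tail (fun i => (w i : ℝ)) = fun j => ((Fin.tail w) j : ℝ) := rfl
    have hval : (MvPolynomial.aeval (fun j => ((Fin.tail w) j : ℝ)) D : ℝ) =
        ((MvPolynomial.eval (Fin.tail w) D : ℚ) : ℝ) := aeval_ratCast _ _
    have hint : (fun j => ((Fin.tail w) j : ℝ)) ∈ interior {x | PZL D (Fin.tail w) x} := by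
      refine PZL.mem_interior hg ?_ ?_ (pzl_self hw')
      · rw [hval]; exact_mod_cast hpos
      · rw [aeval_ratCast]; exact_mod_cast hg.bigDisc_ne
    have hcont : Continuous (fun x : Fin (m + 1) → ℝ => Fin.tail x) := by
      unfold Fin.tail; fun_prop
    rw [hU]
    refine ⟨?_, ?_⟩
    · rw [mem_interior_iff_mem_nhds]
      have h1 : ∀ᶠ x : Fin (m + 1) → ℝ in 𝓝 (fun i => (w i : ℝ)),
          (Fin.tail x : Fin m → ℝ) ∈ interior {x | PZL D (Fin.tail w) x} :=
        hcont.continuousAt.eventually (isOpen_interior.mem_nhds hint)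
      filter_upwards [h1] with x hx
      by_cases hxX : x ∈ X
      · left
        refine (mem_ratClosure D x).mpr ⟨?_, ?_⟩
        · have := ((mem_smoothRealPoints D x).mp hxX).1
          rw [aeval_doubleCover, this, sub_self]
        · have h2 : PZL D (Fin.tail w) (Fin.tail x) := interior_subset hx
          exact h2.sqLim
      · right; exact hxX
    · rw [hX, mem_smoothRealPoints, htl, hval]
      refine ⟨?_, Or.inl (by exact_mod_cast hne)⟩
      have : ((w 0 ^ 2 : ℚ) : ℝ) = ((MvPolynomial.eval (Fin.tail w) D : ℚ) : ℝ) := by rw [hw']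
      push_cast at this
      exact this
  set B : Set (Fin (m + 1) → ℝ) := {x : Fin (m + 1) → ℝ |
        ∃ w : Fin (m + 1) → ℚ, (MvPolynomial.eval w (doubleCover D) = 0 ∧ ¬ FreePoint D w) ∧
          ∀ i, x i = (w i : ℝ)} with hB
  have hWeq : W = closure U ∪ closure B := by
    apply Set.Subset.antisymm
    · rw [← closure_union]
      apply closure_mono
      rintro x ⟨q, hq, hx⟩
      have hq' := hq _ rfl
      by_cases hf : FreePoint D q
      · left
        have : x = fun i => (q i : ℝ) := funext hx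
        rw [this]
        exact hmem q hq' hf
      · right
        exact ⟨q, ⟨hq', hf⟩, hx⟩
    · apply union_subset
      · exact hWcl.closure_subset_iff.mpr hUW
      · apply hWcl.closure_subset_iff.mpr
        rintro x ⟨q, ⟨hq, -⟩, hx⟩
        apply subset_closure
        refine ⟨q, fun f hf => ?_, hx⟩
        rw [mem_singleton_iff.mp hf]; exact hq
  refine ⟨U, ⟨_, isOpen_interior, hU⟩, ⟨Z, hZ, hUZ⟩, hSU, hSUc, fun w hw hf => ⟨hmem w hw hf, ?_⟩,
    hWeq, fun hBs => ?_⟩
  · intro v hv
    have hwU := hmem w hw hf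
    exact clopen_preconnected isOpen_interior hZ hU hUZ isPreconnected_connectedComponentIn
      (connectedComponentIn_subset _ _) (mem_connectedComponentIn (hUX hwU)) hwU hv
  · rw [hWeq]
    exact IsSemialg.union hSUc hBs

end Pool.Agent.Results.MP_42de19_nt.PointDensity
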