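import Pool.Agent.Lib.MP_42de19_nt.NearZero

set_option autoImplicit false

namespace Pool.Agent.Results.MP_42de19_nt.QuarticCover

open Set Topology Filter Pool.Agent.Lib.MP42

/-- Let `D` be a nonzero polynomial in `m` variables with rational coefficients, of degree at most
four in each variable, let `X` be the hypersurface `x₀² = D(x₁, …, x_m)`, and let `W` be the closure
of `X(ℚ)` in `X(ℝ)`. Then the interior `U` of `W` relative to the smooth real locus of `X` is open
and closed in the smooth real locus, `U` and its closure are semialgebraic over `ℚ`, and there is a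
nonzero polynomial `H` in `x₁, …, x_m` such that the rational points of `X` in any compact set that
meets neither `U` nor `H = 0` satisfy a nontrivial polynomial equation in `x₁, …, x_m`. -/
theorem result (m : ℕ) (D : MvPolynomial (Fin m) ℚ) (hD0 : D ≠ 0) (hD : ∀ i, D.degreeOf i ≤ 4) :
    ∃ (U : Set (Fin (m + 1) → ℝ)) (H : MvPolynomial (Fin m) ℚ),
      U = interior (ratClosure {doubleCover D} ∪ (smoothRealPoints (doubleCover D))ᶜ) ∩
        smoothRealPoints (doubleCover D) ∧
      (∃ Z, IsClosed Z ∧ U = Z ∩ smoothRealPoints (doubleCover D)) ∧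
      Semialgebraic U ∧ Semialgebraic (closure U) ∧
      H ≠ 0 ∧ ∀ C : Set (Fin (m + 1) → ℝ), IsCompact C →
        (∀ w ∈ C, w ∉ U ∧ (MvPolynomial.aeval (Fin.tail w) H : ℝ) ≠ 0) →
        ∃ G : MvPolynomial (Fin m) ℚ, G ≠ 0 ∧ ∀ q : Fin (m + 1) → ℚ,
          MvPolynomial.eval q (doubleCover D) = 0 → (fun i => (q i : ℝ)) ∈ C →
          MvPolynomial.eval (Fin.tail q) G = 0 := by
  classical
  obtain ⟨s, D₀, hDs, hgood⟩ := exists_good D hD0 hD
  set S : Set (Fin m → ℝ) := {x | SqLim D₀ x} with hS
  set P : Set (Fin m → ℝ) := {x | 0 < (MvPolynomial.aeval x D : ℝ)} with hP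
  set T : Set (Fin m → ℝ) := interior S ∩ P with hT
  set X := smoothRealPoints (doubleCover D) with hX
  set W := ratClosure {doubleCover D} with hW
  have haev : ∀ x : Fin m → ℝ, (MvPolynomial.aeval x D : ℝ) =
      (MvPolynomial.aeval x s : ℝ) ^ 2 * MvPolynomial.aeval x D₀ := by
    intro x; rw [hDs, map_mul, map_pow]
  have hev : ∀ z : Fin m → ℚ, MvPolynomial.eval z D =
      (MvPolynomial.eval z s) ^ 2 * MvPolynomial.eval z D₀ := by
    intro z; rw [hDs, map_mul, map_pow]
  have hsne : ∀ x ∈ P, (MvPolynomial.aeval x s : ℝ) ≠ 0 := by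
    intro x hx h
    have := haev x
    rw [h] at this
    have hx' : 0 < (MvPolynomial.aeval x D : ℝ) := hx
    rw [this] at hx'
    simp at hx'
  have hD₀pos : ∀ x ∈ P, 0 < (MvPolynomial.aeval x D₀ : ℝ) := by
    intro x hx
    have hx' : 0 < (MvPolynomial.aeval x D : ℝ) := hx
    rw [haev x] at hx'
    exact (pos_iff_pos_of_mul_pos hx').mp (by have := hsne x hx; positivity)
  -- transfer between D and D₀
  have hlim1 : ∀ x, SqLim D₀ x → SqLim D x := by
    intro x hx ε hε
    obtain ⟨z, hz, y, hy⟩ := hx ε hε
    exact ⟨z, hz, MvPolynomial.eval z s * y, by rw [hev, mul_pow, hy]⟩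
  have hlim2 : ∀ x ∈ P, SqLim D x → SqLim D₀ x := by
    intro x hxP hx ε hε
    have h1 : ∀ᶠ w in 𝓝 x, (MvPolynomial.aeval w s : ℝ) ≠ 0 :=
      (continuous_aeval s).continuousAt.eventually_ne (hsne x hxP)
    rw [Metric.eventually_nhds_iff] at h1
    obtain ⟨η, hη, h1⟩ := h1
    obtain ⟨z, hz, y, hy⟩ := hx (min ε η) (lt_min hε hη)
    have h2 := h1 (y := fun j => (z j : ℝ)) (by
      rw [dist_pi_lt_iff hη]; intro j; rw [Real.dist_eq]
      exact lt_of_lt_of_le (hz j) (min_le_right _ _))
    rw [aeval_ratCast] at h2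
    have h3 : MvPolynomial.eval z s ≠ 0 := by
      intro h; rw [h] at h2; simp at h2
    refine ⟨z, fun j => lt_of_lt_of_le (hz j) (min_le_left _ _), y / MvPolynomial.eval z s, ?_⟩
    rw [div_pow, hy, hev]
    field_simp
  have hPopen : IsOpen P := isOpen_lt continuous_const (continuous_aeval D)
  have hTopen : IsOpen T := isOpen_interior.inter hPopen
  have hTO : T = interior S ∩ P := rfl
  have hTZ : T = closure (interior S) ∩ P := by
    apply Set.Subset.antisymm
    · rintro x ⟨h1, h2⟩; exact ⟨subset_closure h1, h2⟩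
    · rintro x ⟨h1, h2⟩
      exact ⟨mem_interior_of_closure hgood (hD₀pos x h2) h1, h2⟩
  have hTcl : closure T ∩ P ⊆ T := by
    rintro x ⟨h1, h2⟩
    rw [hTZ]
    exact ⟨closure_mono inter_subset_left h1, h2⟩
  have htail : Continuous (fun w : Fin (m + 1) → ℝ => Fin.tail w) := by
    unfold Fin.tail; fun_prop
  -- the set U
  set U : Set (Fin (m + 1) → ℝ) := {w | w ∈ X ∧ Fin.tail w ∈ closure T} with hU
  have hWcl : IsClosed W := isClosed_closure
  have hUW : U ⊆ W := by
    rintro w ⟨hw, hwT⟩
    have h1 := (mem_smoothRealPoints D w).mp hw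
    refine (mem_ratClosure D w).mpr ⟨by rw [aeval_doubleCover, h1.1, sub_self], hlim1 _ ?_⟩
    have : closure T ⊆ S := (isClosed_sqLim D₀).closure_subset_iff.mpr
      (inter_subset_left.trans interior_subset)
    exact this hwT
  -- U is relatively open
  have hUopen : ∀ w ∈ U, ∀ᶠ w' in 𝓝 w, w' ∈ X → w' ∈ U := by
    rintro w ⟨hw, hwT⟩
    obtain ⟨h0, hsm⟩ := (mem_smoothRealPoints D w).mp hw
    by_cases hz : (MvPolynomial.aeval (Fin.tail w) D : ℝ) = 0
    · obtain ⟨i, hi⟩ := hsm.resolve_left (by simpa using hz)
      obtain ⟨δ, hδ, hnear⟩ := near_zero isOpen_interior isClosed_closure hTO hTZ hwT hz hi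
      have h1 : ∀ᶠ w' in 𝓝 w, dist w' w < δ := Metric.ball_mem_nhds w hδ
      filter_upwards [h1] with w' hw' hwX
      refine ⟨hwX, hnear _ ?_ ?_⟩
      · intro j
        rw [dist_pi_lt_iff hδ] at hw'
        have := hw' j.succ
        rwa [Real.dist_eq] at this
      · have := ((mem_smoothRealPoints D w').mp hwX).1
        rw [← this]; positivity
    · have hpos : Fin.tail w ∈ P := by
        have : 0 < (MvPolynomial.aeval (Fin.tail w) D : ℝ) := by
          refine lt_of_le_of_ne ?_ (Ne.symm hz)
          rw [← h0]; positivity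
        exact this
      have hTw : Fin.tail w ∈ T := hTcl ⟨hwT, hpos⟩
      have h1 : ∀ᶠ w' : Fin (m + 1) → ℝ in 𝓝 w, (Fin.tail w' : Fin m → ℝ) ∈ T :=
        htail.continuousAt.eventually (hTopen.mem_nhds hTw)
      filter_upwards [h1] with w' hw' hwX
      exact ⟨hwX, subset_closure hw'⟩
  -- U is the relative interior
  have hUeq : U = interior (W ∪ Xᶜ) ∩ X := by
    apply Set.Subset.antisymm
    · intro w hw
      refine ⟨?_, hw.1⟩
      rw [mem_interior_iff_mem_nhds]
      filter_upwards [hUopen w hw] with w' hw'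
      by_cases h : w' ∈ X
      · left; exact hUW (hw' h)
      · right; exact h
    · -- points of the interior over P
      have key : ∀ w ∈ interior (W ∪ Xᶜ), w ∈ X → Fin.tail w ∈ P → Fin.tail w ∈ T := by
        intro w hw hwX hwP
        obtain ⟨h0, hsm⟩ := (mem_smoothRealPoints D w).mp hwX
        refine ⟨?_, hwP⟩
        rw [mem_interior_iff_mem_nhds]
        -- lift points near tail w
        let lift : (Fin m → ℝ) → (Fin (m + 1) → ℝ) := fun x =>
          Fin.cons (if 0 ≤ w 0 then Real.sqrt (MvPolynomial.aeval x D : ℝ)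
            else -Real.sqrt (MvPolynomial.aeval x D : ℝ)) x
        have hliftc : Continuous lift := by
          refine continuous_pi fun j => ?_
          refine Fin.cases ?_ (fun k => ?_) j
          · simp only [lift, Fin.cons_zero]
            split_ifs
            · exact (continuous_aeval D).sqrt
            · exact (continuous_aeval D).sqrt.neg
          · simp only [lift, Fin.cons_succ]; exact continuous_apply k
        have hlw : lift (Fin.tail w) = w := by
          funext j
          refine Fin.cases ?_ (fun k => ?_) j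
          · simp only [lift, Fin.cons_zero]
            split_ifs with h
            · rw [← h0, Real.sqrt_sq h]
            · rw [← h0, ← neg_sq, Real.sqrt_sq (by linarith)]; ring
          · simp only [lift, Fin.cons_succ]; rfl
        have h1 : ∀ᶠ x in 𝓝 (Fin.tail w), lift x ∈ interior (W ∪ Xᶜ) := by
          apply hliftc.continuousAt.eventually
          rw [hlw]
          exact isOpen_interior.mem_nhds hw
        have h2 : ∀ᶠ x in 𝓝 (Fin.tail w), x ∈ P := hPopen.mem_nhds hwP
        filter_upwards [h1, h2] with x hx1 hx2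
        have hx2' : 0 < (MvPolynomial.aeval x D : ℝ) := hx2
        have htl : Fin.tail (lift x) = x := by simp [lift]
        have hlX : lift x ∈ X := by
          rw [hX, mem_smoothRealPoints, htl]
          refine ⟨?_, Or.inl hx2'.ne'⟩
          simp only [lift, Fin.cons_zero]
          split_ifs
          · exact Real.sq_sqrt hx2'.le
          · rw [neg_sq]; exact Real.sq_sqrt hx2'.le
        have hlW : lift x ∈ W := by
          rcases interior_subset hx1 with h | h
          · exact h
          · exact absurd hlX h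
        have := ((mem_ratClosure D (lift x)).mp hlW).2
        rw [htl] at this
        exact hlim2 x hx2 this
      rintro w ⟨hw, hwX⟩
      refine ⟨hwX, ?_⟩
      obtain ⟨h0, hsm⟩ := (mem_smoothRealPoints D w).mp hwX
      by_cases hz : (MvPolynomial.aeval (Fin.tail w) D : ℝ) = 0
      · obtain ⟨i, hi⟩ := hsm.resolve_left (by simpa using hz)
        have hw0 : w 0 = 0 := by rw [hz] at h0; simpa using h0
        rw [mem_closure_iff_nhds]
        intro N hN
        -- the lift near w
        let lift : (Fin m → ℝ) → (Fin (m + 1) → ℝ) := fun x =>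
          Fin.cons (Real.sqrt (MvPolynomial.aeval x D : ℝ)) x
        have hliftc : Continuous lift := by
          refine continuous_pi fun j => ?_
          refine Fin.cases ?_ (fun k => ?_) j
          · simp only [lift, Fin.cons_zero]
            exact (continuous_aeval D).sqrt
          · simp only [lift, Fin.cons_succ]; exact continuous_apply k
        have hlw : lift (Fin.tail w) = w := by
          funext j
          refine Fin.cases ?_ (fun k => ?_) j
          · simp only [lift, Fin.cons_zero]
            rw [hz, Real.sqrt_zero, hw0]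
          · simp only [lift, Fin.cons_succ]; rfl
        have h1 : ∀ᶠ x in 𝓝 (Fin.tail w), lift x ∈ interior (W ∪ Xᶜ) := by
          apply hliftc.continuousAt.eventually
          rw [hlw]
          exact isOpen_interior.mem_nhds hw
        have h2 := h1.and hN
        obtain ⟨η, hη, h2⟩ := Metric.eventually_nhds_iff.mp h2
        have hdv := hasDerivAt_update D (Fin.tail w) i (Fin.tail w i)
        rw [Function.update_eq_self] at hdv
        obtain ⟨s', t', hs', ht', hs'', ht''⟩ := exists_sides hdv (by
          rw [Function.update_eq_self]; exact hz) hi η hη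
        obtain ⟨h3, h4⟩ := h2 (y := Function.update (Fin.tail w) i t') (by
          rw [dist_pi_lt_iff hη]
          intro j
          by_cases hj : j = i
          · subst hj
            rw [Function.update_self, Real.dist_eq]; exact ht'
          · rw [Function.update_of_ne hj, dist_self]; exact hη)
        refine ⟨_, h4, ?_⟩
        have htl : ∀ x, Fin.tail (lift x) = x := fun x => by simp [lift]
        have hPx : Function.update (Fin.tail w) i t' ∈ P := ht''
        have hlX : lift (Function.update (Fin.tail w) i t') ∈ X := by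
          rw [hX, mem_smoothRealPoints, htl]
          exact ⟨by simp only [lift, Fin.cons_zero]; exact Real.sq_sqrt ht''.le,
            Or.inl ht''.ne'⟩
        have := key _ h3 hlX (by rw [htl]; exact hPx)
        rwa [htl] at this
      · have hpos : Fin.tail w ∈ P := by
          have : 0 < (MvPolynomial.aeval (Fin.tail w) D : ℝ) := by
            refine lt_of_le_of_ne ?_ (Ne.symm hz)
            rw [← h0]; positivity
          exact this
        exact subset_closure (key w hw hwX hpos)
  have hUZ : U = (fun w : Fin (m + 1) → ℝ => Fin.tail w) ⁻¹' (closure T) ∩ X := by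
    ext w; exact and_comm
  have hUZc : IsClosed ((fun w : Fin (m + 1) → ℝ => Fin.tail w) ⁻¹' (closure T)) :=
    isClosed_closure.preimage htail
  have hSU : SA (evR (m + 1)) U := by
    refine SA.of_clopen (S := X) (U := interior (W ∪ Xᶜ)) (sa_smoothRealPoints _)
      isOpen_interior hUZc ?_ ?_
    · rw [hUeq, Set.inter_comm]
    · rw [hUZ, Set.inter_comm]
  refine ⟨U, D * bigDisc D₀, hUeq, ⟨_, hUZc, hUZ⟩, hSU.isSemialg, hSU.closure.isSemialg,
    mul_ne_zero hD0 (bigDisc_ne_zero hgood), ?_⟩
  intro C hC hCU
  refine hC.induction_on (p := fun C' => ∃ G : MvPolynomial (Fin m) ℚ, G ≠ 0 ∧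
    ∀ q : Fin (m + 1) → ℚ, MvPolynomial.eval q (doubleCover D) = 0 → (fun i => (q i : ℝ)) ∈ C' →
      MvPolynomial.eval (Fin.tail q) G = 0) ?_ ?_ ?_ ?_
  · exact ⟨1, one_ne_zero, fun q _ h => absurd h (Set.notMem_empty _)⟩
  · rintro s' t' hst ⟨G, hG, h⟩
    exact ⟨G, hG, fun q hq hs => h q hq (hst hs)⟩
  · rintro s' t' ⟨G, hG, h⟩ ⟨G', hG', h'⟩
    refine ⟨G * G', mul_ne_zero hG hG', fun q hq hs => ?_⟩
    rw [map_mul]
    rcases hs with hs | hs
    · rw [h q hq hs, zero_mul]
    · rw [h' q hq hs, mul_zero]
  · intro w hwC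
    obtain ⟨hwU, hwH⟩ := hCU w hwC
    by_cases hwW : w ∈ W
    · rw [map_mul] at hwH
      have hDne := left_ne_zero_of_mul hwH
      have hdisc := right_ne_zero_of_mul hwH
      obtain ⟨hw0, hwS⟩ := (mem_ratClosure D w).mp hwW
      rw [aeval_doubleCover] at hw0
      have h0 : w 0 ^ 2 = MvPolynomial.aeval (Fin.tail w) D := by linarith
      have hpos : Fin.tail w ∈ P := by
        have : 0 < (MvPolynomial.aeval (Fin.tail w) D : ℝ) := by
          refine lt_of_le_of_ne ?_ (Ne.symm hDne)
          rw [← h0]; positivity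
        exact this
      have hwX : w ∈ X := (mem_smoothRealPoints D w).mpr ⟨h0, Or.inl hDne⟩
      have hnT : Fin.tail w ∉ interior S := by
        intro h
        exact hwU ⟨hwX, subset_closure ⟨h, hpos⟩⟩
      have hnzl : ¬ ZL D₀ (Fin.tail w) := fun h =>
        hnT (mem_interior_of_zl hgood (hD₀pos _ hpos) hdisc h)
      unfold ZL at hnzl
      push Not at hnzl
      obtain ⟨V, hV, G, hG, hVG⟩ := hnzl
      have h1 : ∀ᶠ w' : Fin (m + 1) → ℝ in 𝓝 w, (Fin.tail w' : Fin m → ℝ) ∈ V :=
        htail.continuousAt.eventually hV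
      have h2 : ∀ᶠ w' : Fin (m + 1) → ℝ in 𝓝 w,
          (MvPolynomial.aeval (Fin.tail w') s : ℝ) ≠ 0 := by
        apply ((continuous_aeval s).comp htail).continuousAt.eventually_ne
        exact hsne _ hpos
      refine ⟨{w' : Fin (m + 1) → ℝ | (Fin.tail w' : Fin m → ℝ) ∈ V ∧
        (MvPolynomial.aeval (Fin.tail w') s : ℝ) ≠ 0},
        mem_nhdsWithin_of_mem_nhds (h1.and h2), G, hG, ?_⟩
      rintro q hq ⟨hqV, hqs⟩
      by_contra hGq
      rw [eval_doubleCover] at hq
      have hqt : Fin.tail (fun i => (q i : ℝ)) = fun j => ((Fin.tail q) j : ℝ) := rfl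
      rw [hqt] at hqV hqs
      rw [aeval_ratCast] at hqs
      have hqs' : MvPolynomial.eval (Fin.tail q) s ≠ 0 := by
        intro h; rw [h] at hqs; simp at hqs
      refine hVG (Fin.tail q) hqV hGq (q 0 / MvPolynomial.eval (Fin.tail q) s) ?_
      have h3 : q 0 ^ 2 = MvPolynomial.eval (Fin.tail q) s ^ 2 *
          MvPolynomial.eval (Fin.tail q) D₀ := by rw [← hev]; linarith
      rw [div_pow, h3]
      field_simp
    · refine ⟨Wᶜ, mem_nhdsWithin_of_mem_nhds (hWcl.isOpen_compl.mem_nhds hwW), 1, one_ne_zero, ?_⟩
      intro q hq hqW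
      exfalso
      apply hqW
      apply subset_closure
      exact ⟨q, fun f hf => by rw [mem_singleton_iff.mp hf]; exact hq, fun i => rfl⟩

end Pool.Agent.Results.MP_42de19_nt.QuarticCover
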